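import Mathlib

set_option autoImplicit false

/-!
# Definitions for the local strong draw theorem in the Chooser-Picker game (MP_289501_co)
-/

namespace Pool.Agent.ChPi

open Finset

/-- `Draw F U P`: in the Chooser-Picker game with winning sets `F`, when `U` is the set of
unselected points and `P` the set of points Picker has received so far, Picker has a strategy
after which every winning set contains a point of Picker.  In each move Picker offers two
unselected points `x`, `y`; Chooser keeps one of them and Picker receives the other; if at most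
one point is left, it goes to Chooser. -/
inductive Draw {V : Type} [DecidableEq V] (F : Finset (Finset V)) :
    Finset V → Finset V → Prop
  | last (U P : Finset V) (hU : U.card ≤ 1) (hP : ∀ A ∈ F, (A ∩ P).Nonempty) : Draw F U P
  | move (U P : Finset V) (x y : V) (hx : x ∈ U) (hy : y ∈ U) (hxy : x ≠ y)
      (h1 : Draw F ((U.erase x).erase y) (insert x P))
      (h2 : Draw F ((U.erase x).erase y) (insert y P)) : Draw F U P

/-- a set of pairwise disjoint pairs of distinct points -/
def Matching {V : Type} [DecidableEq V] (M : Finset (V × V)) : Prop :=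
  (∀ p ∈ M, p.1 ≠ p.2) ∧
    ∀ p ∈ M, ∀ q ∈ M, p ≠ q → Disjoint ({p.1, p.2} : Finset V) {q.1, q.2}

/-- the points of a set of pairs -/
def verts {V : Type} [DecidableEq V] (M : Finset (V × V)) : Finset V :=
  M.biUnion fun p => {p.1, p.2}

/-- the deficiency condition: `∑ (h - |C i \ W|)⁺ ≤ L |W|` for all `W` -/
def Spread {V ι : Type} [DecidableEq V] (I : Finset ι) (C : ι → Finset V) (h L : ℕ) : Prop :=
  ∀ W : Finset V, ∑ i ∈ I, (h - (C i \ W).card) ≤ L * W.card

/-- weight of an outcome in a product space -/
noncomputable def wt {V Ω : Type} [Fintype V] (p : V → Ω → ℝ) (ω : V → Ω) : ℝ :=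
  ∏ v, p v (ω v)

/-- expectation in a finite product space -/
noncomputable def Ex {V Ω : Type} [Fintype V] [DecidableEq V] [Fintype Ω] (p : V → Ω → ℝ)
    (f : (V → Ω) → ℝ) : ℝ := ∑ ω, wt p ω * f ω

open Classical in
/-- probability in a finite product space -/
noncomputable def Pr {V Ω : Type} [Fintype V] [DecidableEq V] [Fintype Ω] (p : V → Ω → ℝ)
    (B : (V → Ω) → Prop) : ℝ := Ex p fun ω => if B ω then 1 else 0

/-- the choice law of a point `y`: it picks `z` with probability `w y z` -/
def pw {V : Type} [Fintype V] (w : V → V → ℝ) (y : V) : Option V → ℝ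
  | none => 1 - ∑ z, w y z
  | some z => w y z

open Classical in
/-- the pairs formed by the picks `ω`: a point `q.1` without a pick is paired with the least
point that picks it -/
noncomputable def pairs {V : Type} [Fintype V] [LinearOrder V] (w : V → V → ℝ)
    (ω : V → Option V) : Finset (V × V) :=
  univ.filter fun q => w q.2 q.1 ≠ 0 ∧ ω q.1 = none ∧ ω q.2 = some q.1 ∧
    ∀ y, w y q.1 ≠ 0 → ω y = some q.1 → q.2 ≤ y

open Classical in
/-- the number of picks made in `Y` or pointing to `Y` -/
noncomputable def NN {V : Type} [Fintype V] (w : V → V → ℝ) (Y : Finset V)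
    (ω : V → Option V) : ℕ :=
  (Y.filter fun y => ω y ≠ none).card +
    (univ.filter fun y => ∃ z ∈ Y, w y z ≠ 0 ∧ ω y = some z).card

/-- connectedness of a finite set with respect to a relation -/
def Conn {ι : Type} [DecidableEq ι] (R : ι → ι → Prop) (T : Finset ι) : Prop :=
  ∀ P ⊆ T, P.Nonempty → P ≠ T → ∃ i ∈ P, ∃ j ∈ T \ P, R i j

/-- two indices are related if they are joined by a chain of three intersections -/
def R3 {V ι : Type} [DecidableEq V] (I : Finset ι) (C : ι → Finset V) (i j : ι) : Prop :=
  ∃ a ∈ I, ∃ b ∈ I, ¬ Disjoint (C i) (C a) ∧ ¬ Disjoint (C a) (C b) ∧ ¬ Disjoint (C b) (C j)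

/-- the indices of the sets with fewer than `g` points outside `Y` -/
def near {V ι : Type} [DecidableEq V] (I : Finset ι) (C : ι → Finset V) (g : ℕ) (Y : Finset V) :
    Finset ι := I.filter fun i => (C i \ Y).card < g

end Pool.Agent.ChPi
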