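import Pool.Agent.ChPi.Defs

set_option autoImplicit false

/-!
# The local lemma in a finite product space (Rosenfeld counting argument), resampling identity
-/

namespace Pool.Agent.ChPi

open Finset

namespace L

variable {V Ω : Type} [Fintype V] [DecidableEq V] [Fintype Ω]

omit [DecidableEq V] [Fintype Ω] in
theorem wt_nonneg {p : V → Ω → ℝ} (hp0 : ∀ v o, 0 ≤ p v o) (ω : V → Ω) : 0 ≤ wt p ω :=
  Finset.prod_nonneg fun v _ => hp0 v _

theorem sum_wt {p : V → Ω → ℝ} (hp1 : ∀ v, ∑ o, p v o = 1) : ∑ ω, wt p ω = 1 := by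
  unfold wt
  have h := (Finset.prod_univ_sum (fun _ : V => (univ : Finset Ω)) p).symm
  rw [Fintype.piFinset_univ] at h
  rw [h]
  exact Finset.prod_eq_one fun v _ => hp1 v

/-- the expectation of a product of one-coordinate functions -/
theorem Ex_prod (p : V → Ω → ℝ) (f : V → Ω → ℝ) :
    Ex p (fun ω => ∏ v, f v (ω v)) = ∏ v, ∑ o, p v o * f v o := by
  unfold Ex wt
  have h := (Finset.prod_univ_sum (fun _ : V => (univ : Finset Ω)) (fun v o => p v o * f v o)).symm
  rw [Fintype.piFinset_univ] at h
  rw [← h]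
  exact Finset.sum_congr rfl fun ω _ => by rw [Finset.prod_mul_distrib]

theorem Ex_const {p : V → Ω → ℝ} (hp1 : ∀ v, ∑ o, p v o = 1) (c : ℝ) :
    Ex p (fun _ => c) = c := by
  unfold Ex
  rw [← Finset.sum_mul, sum_wt hp1, one_mul]

theorem Ex_mono {p : V → Ω → ℝ} (hp0 : ∀ v o, 0 ≤ p v o) {f g : (V → Ω) → ℝ}
    (h : ∀ ω, f ω ≤ g ω) : Ex p f ≤ Ex p g :=
  Finset.sum_le_sum fun ω _ => mul_le_mul_of_nonneg_left (h ω) (wt_nonneg hp0 ω)

theorem Ex_nonneg {p : V → Ω → ℝ} (hp0 : ∀ v o, 0 ≤ p v o) {f : (V → Ω) → ℝ}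
    (h : ∀ ω, 0 ≤ f ω) : 0 ≤ Ex p f :=
  Finset.sum_nonneg fun ω _ => mul_nonneg (wt_nonneg hp0 ω) (h ω)

theorem Ex_mul_left (p : V → Ω → ℝ) (c : ℝ) (f : (V → Ω) → ℝ) :
    Ex p (fun ω => c * f ω) = c * Ex p f := by
  unfold Ex
  rw [Finset.mul_sum]
  exact Finset.sum_congr rfl fun ω _ => by ring

theorem Ex_mul_right (p : V → Ω → ℝ) (c : ℝ) (f : (V → Ω) → ℝ) :
    Ex p (fun ω => f ω * c) = Ex p f * c := by
  unfold Ex
  rw [Finset.sum_mul]
  exact Finset.sum_congr rfl fun ω _ => by ring

theorem Ex_sum {ι : Type*} (p : V → Ω → ℝ) (s : Finset ι) (f : ι → (V → Ω) → ℝ) :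
    Ex p (fun ω => ∑ i ∈ s, f i ω) = ∑ i ∈ s, Ex p (f i) := by
  unfold Ex
  rw [Finset.sum_comm]
  exact Finset.sum_congr rfl fun ω _ => by rw [Finset.mul_sum]

theorem Ex_add (p : V → Ω → ℝ) (f g : (V → Ω) → ℝ) :
    Ex p (fun ω => f ω + g ω) = Ex p f + Ex p g := by
  unfold Ex
  rw [← Finset.sum_add_distrib]
  exact Finset.sum_congr rfl fun ω _ => by ring

/-- take the coordinates in `A` from `σ`, the others from `ω` -/
def merge (A : Finset V) (σ ω : V → Ω) : V → Ω := fun v => if v ∈ A then σ v else ω v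

omit [Fintype V] [Fintype Ω] in
theorem merge_of_mem {A : Finset V} {v : V} (hv : v ∈ A) (σ ω : V → Ω) :
    merge A σ ω v = σ v := if_pos hv

omit [Fintype V] [Fintype Ω] in
theorem merge_of_notMem {A : Finset V} {v : V} (hv : v ∉ A) (σ ω : V → Ω) :
    merge A σ ω v = ω v := if_neg hv

omit [Fintype Ω] in
theorem wt_merge_mul (p : V → Ω → ℝ) (A : Finset V) (σ ω : V → Ω) :
    wt p (merge A σ ω) * wt p (merge A ω σ) = wt p σ * wt p ω := by
  unfold wt
  rw [← Finset.prod_mul_distrib, ← Finset.prod_mul_distrib]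
  refine Finset.prod_congr rfl fun v _ => ?_
  unfold merge
  split_ifs
  · rfl
  · ring

/-- exchange the coordinates outside `A` -/
def mergeEquiv (A : Finset V) : (V → Ω) × (V → Ω) ≃ (V → Ω) × (V → Ω) where
  toFun x := (merge A x.1 x.2, merge A x.2 x.1)
  invFun x := (merge A x.1 x.2, merge A x.2 x.1)
  left_inv x := by
    ext v
    · simp only [merge]; split_ifs <;> rfl
    · simp only [merge]; split_ifs <;> rfl
  right_inv x := by
    ext v
    · simp only [merge]; split_ifs <;> rfl
    · simp only [merge]; split_ifs <;> rfl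

/-- the resampling identity: the coordinates in `A` may be chosen afresh -/
theorem resample {p : V → Ω → ℝ} (hp1 : ∀ v, ∑ o, p v o = 1) (A : Finset V)
    (f : (V → Ω) → ℝ) : Ex p f = Ex p fun ω => Ex p fun σ => f (merge A σ ω) := by
  have h1 : (Ex p fun ω => Ex p fun σ => f (merge A σ ω))
      = ∑ x : (V → Ω) × (V → Ω), wt p x.1 * wt p x.2 * f (merge A x.1 x.2) := by
    unfold Ex
    rw [Fintype.sum_prod_type_right]
    refine Finset.sum_congr rfl fun ω _ => ?_
    rw [Finset.mul_sum]
    exact Finset.sum_congr rfl fun σ _ => by ring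
  have h2 : ∑ x : (V → Ω) × (V → Ω), wt p x.1 * wt p x.2 * f (merge A x.1 x.2)
      = ∑ x : (V → Ω) × (V → Ω), wt p x.1 * wt p x.2 * f x.1 := by
    rw [← Equiv.sum_comp (mergeEquiv A) (fun x => wt p x.1 * wt p x.2 * f x.1)]
    refine Finset.sum_congr rfl fun x _ => ?_
    simp only [mergeEquiv, Equiv.coe_fn_mk]
    rw [wt_merge_mul]
  rw [h1, h2, Fintype.sum_prod_type]
  unfold Ex
  refine Finset.sum_congr rfl fun σ _ => ?_
  have h3 : ∑ y, wt p σ * wt p y * f σ = (∑ y, wt p y) * (wt p σ * f σ) := by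
    rw [Finset.sum_mul]
    exact Finset.sum_congr rfl fun y _ => by ring
  simp only at h3 ⊢
  rw [h3, sum_wt hp1, one_mul]

/-- independence -/
theorem Ex_mul_indep {p : V → Ω → ℝ} (hp1 : ∀ v, ∑ o, p v o = 1) (A : Finset V)
    (f g : (V → Ω) → ℝ) (hf : ∀ ω ω' : V → Ω, (∀ v ∈ A, ω v = ω' v) → f ω = f ω')
    (hg : ∀ ω ω' : V → Ω, (∀ v, v ∉ A → ω v = ω' v) → g ω = g ω') :
    Ex p (fun ω => f ω * g ω) = Ex p f * Ex p g := by
  rw [resample hp1 A (fun ω => f ω * g ω)]
  have h1 : ∀ ω σ : V → Ω, f (merge A σ ω) * g (merge A σ ω) = f σ * g ω := by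
    intro ω σ
    rw [hf (merge A σ ω) σ (fun v hv => merge_of_mem hv σ ω),
      hg (merge A σ ω) ω (fun v hv => merge_of_notMem hv σ ω)]
  simp only [h1]
  have h2 : ∀ ω : V → Ω, (Ex p fun σ => f σ * g ω) = Ex p f * g ω := fun ω =>
    Ex_mul_right p (g ω) f
  simp only [h2]
  exact Ex_mul_left p (Ex p f) g

theorem Pr_nonneg {p : V → Ω → ℝ} (hp0 : ∀ v o, 0 ≤ p v o) (B : (V → Ω) → Prop) :
    0 ≤ Pr p B := by
  classical
  unfold Pr
  refine Ex_nonneg hp0 fun ω => ?_
  split_ifs <;> norm_num

theorem Pr_mono {p : V → Ω → ℝ} (hp0 : ∀ v o, 0 ≤ p v o) {B B' : (V → Ω) → Prop}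
    (h : ∀ ω, B ω → B' ω) : Pr p B ≤ Pr p B' := by
  classical
  unfold Pr
  refine Ex_mono hp0 fun ω => ?_
  by_cases h1 : B ω
  · rw [if_pos h1, if_pos (h ω h1)]
  · rw [if_neg h1]
    split_ifs <;> norm_num

theorem Pr_and_indep {p : V → Ω → ℝ} (hp1 : ∀ v, ∑ o, p v o = 1) (A : Finset V)
    (B B' : (V → Ω) → Prop) (hB : ∀ ω ω' : V → Ω, (∀ v ∈ A, ω v = ω' v) → (B ω ↔ B ω'))
    (hB' : ∀ ω ω' : V → Ω, (∀ v, v ∉ A → ω v = ω' v) → (B' ω ↔ B' ω')) :
    Pr p (fun ω => B ω ∧ B' ω) = Pr p B * Pr p B' := by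
  classical
  unfold Pr
  rw [← Ex_mul_indep hp1 A (fun ω => if B ω then (1 : ℝ) else 0)
    (fun ω => if B' ω then (1 : ℝ) else 0)
    (fun ω ω' h => by simp only [hB ω ω' h]) (fun ω ω' h => by simp only [hB' ω ω' h])]
  congr 1
  funext ω
  by_cases h1 : B ω <;> by_cases h2 : B' ω <;> simp [h1, h2]

end L

open L in
theorem lll {V Ω E : Type} [Fintype V] [DecidableEq V] [Fintype Ω] [DecidableEq E]
    (p : V → Ω → ℝ) (hp0 : ∀ v o, 0 ≤ p v o) (hp1 : ∀ v, ∑ o, p v o = 1)
    (Es : Finset E) (supp : E → Finset V) (bad : E → (V → Ω) → Prop)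
    (hdep : ∀ e ∈ Es, ∀ ω ω' : V → Ω, (∀ v ∈ supp e, ω v = ω' v) → (bad e ω ↔ bad e ω'))
    (hne : ∀ e ∈ Es, (supp e).Nonempty) (β : ℝ) (hβ0 : 0 < β) (hβ1 : β ≤ 1)
    (hsum : ∀ v, ∑ e ∈ Es.filter (fun e => v ∈ supp e),
      Pr p (bad e) * (β⁻¹) ^ (supp e).card ≤ 1 - β) :
    ∃ ω, ∀ e ∈ Es, ¬ bad e ω := by
  classical
  -- the good event of a set of coordinates
  set good : Finset V → (V → Ω) → Prop := fun S ω => ∀ e ∈ Es, supp e ⊆ S → ¬ bad e ω with hgood
  set G : Finset V → ℝ := fun S => Pr p (good S) with hG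
  have hG0 : ∀ S, 0 ≤ G S := fun S => Pr_nonneg hp0 _
  have hβi : 1 ≤ β⁻¹ := (one_le_inv₀ hβ0).2 hβ1
  have claim : ∀ n : ℕ, ∀ S : Finset V, S.card = n → ∀ v ∉ S, β * G S ≤ G (insert v S) := by
    intro n
    induction n using Nat.strong_induction_on with
    | _ n ih =>
      intro S hS v hv
      -- adding several points
      have hadd : ∀ (T W : Finset V), Disjoint W T → W ∪ T ⊆ S →
          G W ≤ (β⁻¹) ^ T.card * G (W ∪ T) := by
        intro T
        induction T using Finset.induction_on with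
        | empty => intro W _ _; simp
        | insert a T ha ihT =>
          intro W hdis hsub
          have h1 := ihT W (Finset.disjoint_of_subset_right (Finset.subset_insert _ _) hdis)
            ((Finset.union_subset_union_right (Finset.subset_insert _ _)).trans hsub)
          have haW : a ∉ W ∪ T := by
            rw [Finset.mem_union]
            rintro (h | h)
            · exact Finset.disjoint_left.1 hdis h (Finset.mem_insert_self _ _)
            · exact ha h
          have haS : a ∈ S := hsub (Finset.mem_union_right _ (Finset.mem_insert_self _ _))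
          have hlt : (W ∪ T).card < n := by
            rw [← hS]
            refine Finset.card_lt_card ⟨(Finset.union_subset_union_right
              (Finset.subset_insert _ _)).trans hsub, fun h => haW (h haS)⟩
          have h2 := ih _ hlt (W ∪ T) rfl a haW
          have h3 : W ∪ insert a T = insert a (W ∪ T) := Finset.union_insert _ _ _
          rw [h3, Finset.card_insert_of_notMem ha, pow_succ, mul_assoc]
          refine h1.trans (mul_le_mul_of_nonneg_left ?_ (pow_nonneg (inv_nonneg.2 hβ0.le) _))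
          rw [inv_mul_eq_div, le_div_iff₀ hβ0]
          linarith
      -- the events at `v`
      set Ev : Finset E := (Es.filter fun e => v ∈ supp e).filter fun e => supp e ⊆ insert v S
        with hEv
      have hstep : G S ≤ G (insert v S) + ∑ e ∈ Ev, Pr p (fun ω => bad e ω ∧ good (S \ supp e) ω) := by
        have h1 : ∀ ω, (if good S ω then (1 : ℝ) else 0) ≤
            (if good (insert v S) ω then (1 : ℝ) else 0) +
              ∑ e ∈ Ev, (if bad e ω ∧ good (S \ supp e) ω then (1 : ℝ) else 0) := by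
          intro ω
          have hnn : ∀ e ∈ Ev, (0 : ℝ) ≤ if bad e ω ∧ good (S \ supp e) ω then (1 : ℝ) else 0 :=
            fun e _ => by split_ifs <;> norm_num
          by_cases h2 : good S ω
          · rw [if_pos h2]
            by_cases h3 : good (insert v S) ω
            · rw [if_pos h3]
              have := Finset.sum_nonneg hnn
              linarith
            · rw [if_neg h3, zero_add]
              simp only [hgood] at h3
              push Not at h3
              obtain ⟨e, he, hes, heb⟩ := h3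
              have hve : v ∈ supp e := by
                by_contra hve
                refine h2 e he (fun x hx => ?_) heb
                rcases Finset.mem_insert.1 (hes hx) with h | h
                · exact absurd (h ▸ hx) hve
                · exact h
              have heEv : e ∈ Ev := by
                rw [hEv, Finset.mem_filter, Finset.mem_filter]
                exact ⟨⟨he, hve⟩, hes⟩
              have hg' : good (S \ supp e) ω := fun e' he' hs' =>
                h2 e' he' (hs'.trans Finset.sdiff_subset)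
              have h4 := Finset.single_le_sum hnn heEv
              rw [if_pos ⟨heb, hg'⟩] at h4
              exact h4
          · rw [if_neg h2]
            have := Finset.sum_nonneg hnn
            have h5 : (0 : ℝ) ≤ if good (insert v S) ω then (1 : ℝ) else 0 := by
              split_ifs <;> norm_num
            linarith
        have h6 := Ex_mono hp0 h1
        rw [Ex_add, Ex_sum] at h6
        simp only [hG, Pr]
        convert h6
      have hterm : ∀ e ∈ Ev, Pr p (fun ω => bad e ω ∧ good (S \ supp e) ω)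
          ≤ Pr p (bad e) * (β⁻¹) ^ (supp e).card * G S := by
        intro e he
        rw [hEv, Finset.mem_filter, Finset.mem_filter] at he
        obtain ⟨⟨heE, hve⟩, hes⟩ := he
        rw [Pr_and_indep hp1 (supp e) (bad e) (good (S \ supp e)) (hdep e heE)
          (fun ω ω' h => by
            simp only [hgood]
            refine forall_congr' fun e' => forall_congr' fun he' => forall_congr' fun hs' => ?_
            rw [hdep e' he' ω ω' fun x hx => h x (Finset.mem_sdiff.1 (hs' hx)).2]), mul_assoc]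
        refine mul_le_mul_of_nonneg_left ?_ (Pr_nonneg hp0 _)
        have h1 := hadd (S ∩ supp e) (S \ supp e) (Finset.disjoint_sdiff_inter S (supp e))
          (by rw [Finset.sdiff_union_inter])
        rw [Finset.sdiff_union_inter] at h1
        refine h1.trans (mul_le_mul_of_nonneg_right ?_ (hG0 S))
        exact pow_le_pow_right₀ hβi (Finset.card_le_card Finset.inter_subset_right)
      have hsum' : ∑ e ∈ Ev, Pr p (fun ω => bad e ω ∧ good (S \ supp e) ω) ≤ (1 - β) * G S := by
        refine (Finset.sum_le_sum hterm).trans ?_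
        rw [← Finset.sum_mul]
        refine mul_le_mul_of_nonneg_right ?_ (hG0 S)
        refine le_trans ?_ (hsum v)
        refine Finset.sum_le_sum_of_subset_of_nonneg (Finset.filter_subset _ _) fun e _ _ => ?_
        exact mul_nonneg (Pr_nonneg hp0 _) (pow_nonneg (inv_nonneg.2 hβ0.le) _)
      linarith
  have hall : ∀ S : Finset V, β ^ S.card ≤ G S := by
    intro S
    induction S using Finset.induction_on with
    | empty =>
      have h1 : G ∅ = 1 := by
        have h2 : ∀ ω, good ∅ ω := fun ω e he hs =>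
          absurd (Finset.subset_empty.1 hs) (hne e he).ne_empty
        simp only [hG, Pr, h2, if_true]
        exact Ex_const hp1 1
      rw [h1]; simp
    | insert a S ha ih =>
      rw [Finset.card_insert_of_notMem ha, pow_succ, mul_comm]
      exact (mul_le_mul_of_nonneg_left ih hβ0.le).trans (claim S.card S rfl a ha)
  by_contra hcon
  push Not at hcon
  have h1 : G univ = 0 := by
    have h2 : ∀ ω, ¬ good univ ω := fun ω h => by
      obtain ⟨e, he, heb⟩ := hcon ω
      exact h e he (Finset.subset_univ _) heb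
    simp only [hG, Pr, h2, if_false]
    exact Ex_const hp1 0
  have h3 := hall univ
  rw [h1] at h3
  have h4 := pow_pos hβ0 (univ : Finset V).card
  linarith

end Pool.Agent.ChPi
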